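import Pool.Agent.U806.RevA

/-!
# Convex solids of revolution: lattice packings
-/

set_option autoImplicit false

namespace Pool.Agent.U806.Rev

open MeasureTheory Filter Topology
open scoped ENNReal
open Pool.Agent.H349R2.Tet Pool.Agent.TH219.DL

/-- square layers of side `2 R`, the next layer at height `z0` over the deep holes -/
noncomputable def bas (R z0 : ℝ) : Fin 3 → V := ![cs z0 ![R, R], cs 0 ![2 * R, 0], cs 0 ![0, 2 * R]]

theorem dt_bas (R z0 : ℝ) : dt (bas R z0) = z0 * (4 * R ^ 2) := by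
  unfold dt bas
  rw [Matrix.det_fin_three]
  simp
  ring

theorem push {K : Set V} {x : V} (hx : x ∈ interior K) (v : V) : ∃ ε : ℝ, 0 < ε ∧ x + ε • v ∈ K :=
  interior_push hx v

theorem rad_lt {K : Set V} {R : ℝ} (hR : 0 < R) (h : ∀ x ∈ K, rad x ≤ R) {x : V}
    (hx : x ∈ interior K) : rad x < R := by
  obtain ⟨ε, hε, hy⟩ := push hx ![0, x 1, x 2]
  have h1 := h _ hy
  have h2 : rad (x + ε • (![0, x 1, x 2] : V)) = (1 + ε) * rad x := by
    unfold rad
    have e : (x + ε • (![0, x 1, x 2] : V)) 1 ^ 2 + (x + ε • (![0, x 1, x 2] : V)) 2 ^ 2 =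
        (1 + ε) ^ 2 * (x 1 ^ 2 + x 2 ^ 2) := by
      show (x 1 + ε * x 1) ^ 2 + (x 2 + ε * x 2) ^ 2 = _
      ring
    rw [e, Real.sqrt_mul (by positivity), Real.sqrt_sq (by positivity)]
  rw [h2] at h1
  rcases (rad_nonneg x).eq_or_lt with h3 | h3
  · rw [← h3]; exact hR
  · nlinarith

theorem packs {K : Set V} {R z0 h : ℝ} (hR : 0 < R) (hz : 0 < z0)
    (ha : ∀ x ∈ K, rad x ≤ R) (hb : ∀ x ∈ K, ∀ y ∈ K, x 0 - y 0 ≤ h) (hc : h ≤ 2 * z0)
    (hd : ∀ x ∈ K, ∀ y ∈ K, z0 < x 0 - y 0 → rad x + rad y < √2 * R) :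
    Packs K (bas R z0) := by
  rw [packs_iff]
  refine ⟨?_, ?_⟩
  · rw [dt_bas]; positivity
  rintro v ⟨z, rfl⟩ hv0 ⟨x, hx, hxv⟩
  set v : V := ∑ i, (z i : ℝ) • bas R z0 i with hv
  have v0 : v 0 = z 0 * z0 := by
    rw [hv]; simp [Fin.sum_univ_three, bas]
  have v1 : v 1 = z 0 * R + z 1 * (2 * R) := by
    rw [hv]; simp [Fin.sum_univ_three, bas]
  have v2 : v 2 = z 0 * R + z 2 * (2 * R) := by
    rw [hv]; simp [Fin.sum_univ_three, bas]
  have hdist := dist_le x (x - v)
  have e1 : x 1 - (x - v) 1 = v 1 := by simp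
  have e2 : x 2 - (x - v) 2 = v 2 := by simp
  have e0 : x 0 - (x - v) 0 = v 0 := by simp
  rw [e1, e2] at hdist
  have hr1 := rad_lt hR ha hx
  have hr2 := rad_lt hR ha hxv
  have hn1 := rad_nonneg x
  have hn2 := rad_nonneg (x - v)
  -- layers at distance one
  have one : ∀ a ∈ interior K, ∀ b ∈ K, a 0 - b 0 = z0 → rad a + rad b < √2 * R := by
    intro a ha' b hb' hab
    obtain ⟨ε, hε, hy⟩ := push ha' ![1, 0, 0]
    have h1 := hd _ hy b hb' (by
      show z0 < a 0 + ε * 1 - b 0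
      linarith)
    have h2 : rad (a + ε • (![1, 0, 0] : V)) = rad a := by
      unfold rad
      have e : (a + ε • (![1, 0, 0] : V)) 1 ^ 2 + (a + ε • (![1, 0, 0] : V)) 2 ^ 2 =
          a 1 ^ 2 + a 2 ^ 2 := by
        show (a 1 + ε * 0) ^ 2 + (a 2 + ε * 0) ^ 2 = _
        ring
      rw [e]
    rwa [h2] at h1
  have hs2 : √2 ^ 2 = (2 : ℝ) := Real.sq_sqrt (by norm_num)
  have odd : ∀ k m : ℤ, (k = 1 ∨ k = -1) → (1 : ℝ) ≤ ((k : ℝ) + 2 * m) ^ 2 := by
    intro k m hk
    have h1 : (1 : ℤ) ≤ (k + 2 * m) ^ 2 := by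
      have h2 : k + 2 * m ≠ 0 := by omega
      have h3 : 0 < (k + 2 * m) ^ 2 := by positivity
      omega
    exact_mod_cast h1
  have key : (z 0 = 1 ∨ z 0 = -1) → rad x + rad (x - v) < √2 * R → False := by
    intro hk hlt
    have h1 : (rad x + rad (x - v)) ^ 2 < (√2 * R) ^ 2 :=
      pow_lt_pow_left₀ hlt (by linarith) (by norm_num)
    rw [mul_pow, hs2] at h1
    have h2 := odd (z 0) (z 1) hk
    have h3 := odd (z 0) (z 2) hk
    have h4 : v 1 ^ 2 = R ^ 2 * ((z 0 : ℝ) + 2 * z 1) ^ 2 := by rw [v1]; ring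
    have h5 : v 2 ^ 2 = R ^ 2 * ((z 0 : ℝ) + 2 * z 2) ^ 2 := by rw [v2]; ring
    have hR2 : 0 < R ^ 2 := by positivity
    nlinarith [mul_le_mul_of_nonneg_left h2 hR2.le, mul_le_mul_of_nonneg_left h3 hR2.le]
  have height : ∀ a ∈ interior K, ∀ b ∈ K, a 0 - b 0 < h := by
    intro a ha' b hb'
    obtain ⟨ε, hε, hy⟩ := push ha' ![1, 0, 0]
    have h1 := hb _ hy b hb'
    have h2 : (a + ε • (![1, 0, 0] : V)) 0 = a 0 + ε := by
      show a 0 + ε * 1 = _
      ring
    rw [h2] at h1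
    linarith
  rcases lt_trichotomy (z 0) 0 with hk | hk | hk
  · rcases eq_or_ne (z 0) (-1) with h1 | h1
    · refine key (Or.inr h1) ?_
      rw [add_comm]
      refine one _ hxv x (interior_subset hx) ?_
      have : v 0 = -z0 := by rw [v0, h1]; push_cast; ring
      linarith
    · have h2 : (z 0 : ℝ) ≤ -2 := by exact_mod_cast (by omega : z 0 ≤ -2)
      have h3 := height _ hxv x (interior_subset hx)
      nlinarith
  · have hne : z 1 ≠ 0 ∨ z 2 ≠ 0 := by
      by_contra hcon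
      push Not at hcon
      apply hv0
      funext i
      fin_cases i
      · show v 0 = 0
        rw [v0, hk]; simp
      · show v 1 = 0
        rw [v1, hk, hcon.1]; simp
      · show v 2 = 0
        rw [v2, hk, hcon.2]; simp
    have h1 : (rad x + rad (x - v)) ^ 2 < (2 * R) ^ 2 :=
      pow_lt_pow_left₀ (by linarith) (by linarith) (by norm_num)
    have h4 : v 1 ^ 2 = 4 * R ^ 2 * (z 1 : ℝ) ^ 2 := by rw [v1, hk]; push_cast; ring
    have h5 : v 2 ^ 2 = 4 * R ^ 2 * (z 2 : ℝ) ^ 2 := by rw [v2, hk]; push_cast; ring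
    have h6 : (1 : ℝ) ≤ (z 1 : ℝ) ^ 2 + (z 2 : ℝ) ^ 2 := by
      have : (1 : ℤ) ≤ (z 1) ^ 2 + (z 2) ^ 2 := by
        rcases hne with h | h
        · have : 0 < (z 1) ^ 2 := by positivity
          nlinarith [sq_nonneg (z 2)]
        · have : 0 < (z 2) ^ 2 := by positivity
          nlinarith [sq_nonneg (z 1)]
      exact_mod_cast this
    have hR2 : 0 < 4 * R ^ 2 := by positivity
    nlinarith [mul_le_mul_of_nonneg_left h6 hR2.le]
  · rcases eq_or_ne (z 0) 1 with h1 | h1
    · refine key (Or.inl h1) (one _ hx _ (interior_subset hxv) ?_)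
      rw [e0, v0, h1]; push_cast; ring
    · have h2 : (2 : ℝ) ≤ z 0 := by exact_mod_cast (by omega : 2 ≤ z 0)
      have h3 := height _ hx _ (interior_subset hxv)
      nlinarith

/-- the constant -/
noncomputable def cst : ℝ := Real.pi * (3 - √2) / 12

theorem sqrt_two_lt : √2 < 1.41422 := by
  rw [Real.sqrt_lt' (by norm_num)]; norm_num

theorem lt_sqrt_two : 1.41421 < √2 := by
  apply Real.lt_sqrt_of_sq_lt; norm_num

theorem cst_gt : 0.4151 < cst := by
  unfold cst
  have h1 := sqrt_two_lt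
  have h2 := Real.pi_gt_d6
  nlinarith

/-- every convex solid of revolution has a lattice packing of density at least `cst` -/
theorem exists_lattice {K : Set V} (hK : IsCompact K) (hc : Convex ℝ K)
    (hne : (interior K).Nonempty) (hr : IsRev K) :
    ∃ b : Fin 3 → V, Packs K b ∧ ENNReal.ofReal (cst * |dt b|) ≤ volume K := by
  obtain ⟨o, ho⟩ := hne
  have hKne : K.Nonempty := ⟨o, interior_subset ho⟩
  obtain ⟨w, hw, hwm⟩ := hK.exists_isMaxOn hKne rad_cont.continuousOn
  obtain ⟨T, hT, hTm⟩ := hK.exists_isMaxOn hKne (continuous_apply (0 : Fin 3)).continuousOn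
  obtain ⟨B, hB, hBm⟩ := hK.exists_isMinOn hKne (continuous_apply (0 : Fin 3)).continuousOn
  have hwm' : ∀ x ∈ K, rad x ≤ rad w := fun x hx => hwm hx
  have hTm' : ∀ x ∈ K, x 0 ≤ T 0 := fun x hx => hTm hx
  have hBm' : ∀ x ∈ K, B 0 ≤ x 0 := fun x hx => hBm hx
  set R := rad w with hR
  set h := T 0 - B 0 with hh
  have hR0 : 0 < R := by
    obtain ⟨ε, hε, hy⟩ := push ho ![0, 1, 0]
    obtain ⟨δ, hδ, hz⟩ := push ho ![0, -1, 0]
    by_contra hcon
    have h0 : R ≤ 0 := not_lt.1 hcon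
    have zero : ∀ u ∈ K, u 1 = 0 := by
      intro u hu
      have h1 := hwm' u hu
      have h2 : rad u = 0 := le_antisymm (h1.trans h0) (rad_nonneg u)
      have h3 := rad_sq u
      rw [h2] at h3
      nlinarith [sq_nonneg (u 1), sq_nonneg (u 2)]
    have h1 := zero _ (interior_subset ho)
    have h2 := zero _ hy
    have h3 : (o + ε • (![0, 1, 0] : V)) 1 = o 1 + ε := by
      show o 1 + ε * 1 = _
      ring
    rw [h3, h1] at h2
    linarith
  have hh0 : 0 < h := by
    obtain ⟨ε, hε, hy⟩ := push ho ![1, 0, 0]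
    have h1 := hTm' _ hy
    have h2 := hBm' _ (interior_subset ho)
    have h3 : (o + ε • (![1, 0, 0] : V)) 0 = o 0 + ε := by
      show o 0 + ε * 1 = _
      ring
    rw [h3] at h1
    linarith
  have hheight : ∀ x ∈ K, ∀ y ∈ K, x 0 - y 0 ≤ h := by
    intro x hx y hy
    have h1 := hTm' x hx
    have h2 := hBm' y hy
    linarith
  have hs1 := lt_sqrt_two
  have hs2 := sqrt_two_lt
  have hsq : √2 ^ 2 = (2 : ℝ) := Real.sq_sqrt (by norm_num)
  have hpi := Real.pi_pos
  -- pairs with large radii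
  let S : Set (V × V) := (K ×ˢ K) ∩ {p | h / 2 ≤ p.1 0 - p.2 0 ∧ √2 * R ≤ rad p.1 + rad p.2}
  have hS : IsCompact S := by
    apply (hK.prod hK).inter_right
    apply IsClosed.inter
    · exact isClosed_le continuous_const
        (((continuous_apply 0).comp continuous_fst).sub ((continuous_apply 0).comp continuous_snd))
    · exact isClosed_le continuous_const
        ((rad_cont.comp continuous_fst).add (rad_cont.comp continuous_snd))
  rcases S.eq_empty_or_nonempty with hS0 | hSne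
  · -- layers at height `h / 2`
    have hd : ∀ x ∈ K, ∀ y ∈ K, h / 2 < x 0 - y 0 → rad x + rad y < √2 * R := by
      intro x hx y hy hxy
      by_contra hcon
      have : (x, y) ∈ S := ⟨⟨hx, hy⟩, hxy.le, not_lt.1 hcon⟩
      rw [hS0] at this
      exact this
    have hp := packs (z0 := h / 2) hR0 (by linarith) hwm' hheight (by linarith) hd
    refine ⟨_, hp, ?_⟩
    rw [dt_bas, abs_of_pos (by positivity)]
    have hBT : B 0 < T 0 := by linarith
    refine le_trans ?_ (vol_two hK hc hr hT hB hw hBT le_rfl (rad_nonneg T) (rad_nonneg B))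
    apply ENNReal.ofReal_le_ofReal
    rw [← hh]
    unfold cst
    have h1 : Real.pi * (3 - √2) / 12 * (h / 2 * (4 * R ^ 2)) =
        Real.pi * (h * R ^ 2) * ((3 - √2) / 6) := by ring
    have h2 : Real.pi * (h * ((0 : ℝ) ^ 2 + 0 * rad w + rad w ^ 2) / 3) =
        Real.pi * (h * R ^ 2) * (1 / 3) := by rw [hR]; ring
    rw [h1, h2]
    apply mul_le_mul_of_nonneg_left _ (by positivity)
    linarith
  · obtain ⟨p, hp, hpm⟩ := hS.exists_isMaxOn hSne
      (((continuous_apply (0 : Fin 3)).comp continuous_fst).sub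
        ((continuous_apply (0 : Fin 3)).comp continuous_snd)).continuousOn
    obtain ⟨⟨hx, hy⟩, hp1, hp2⟩ := hp
    obtain ⟨x, y⟩ := p
    simp only at hx hy hp1 hp2
    have hmax : ∀ a ∈ K, ∀ b ∈ K, x 0 - y 0 < a 0 - b 0 → rad a + rad b < √2 * R := by
      intro a ha b hb hab
      by_contra hcon
      have h1 : (a, b) ∈ S := ⟨⟨ha, hb⟩, by show h / 2 ≤ a 0 - b 0; linarith, not_lt.1 hcon⟩
      have h2 := hpm h1
      have h3 : a 0 - b 0 ≤ x 0 - y 0 := h2
      linarith
    have hz0 : 0 < x 0 - y 0 := by linarith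
    have hpk := packs (z0 := x 0 - y 0) hR0 hz0 hwm' hheight (by linarith) hmax
    refine ⟨_, hpk, ?_⟩
    rw [dt_bas, abs_of_pos (by positivity)]
    have hxw := hwm' x hx
    have hyw := hwm' y hy
    refine le_trans ?_ (vol_two hK hc hr hx hy hw (by linarith) (σ := (√2 - 1) * R)
      (mul_nonneg (by linarith) hR0.le) (by linarith) (by linarith))
    apply ENNReal.ofReal_le_ofReal
    apply le_of_eq
    unfold cst
    rw [← hR]
    have h1 : ((√2 - 1) * R) ^ 2 + (√2 - 1) * R * R + R ^ 2 = (3 - √2) * R ^ 2 := by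
      have : ((√2 - 1) * R) ^ 2 + (√2 - 1) * R * R + R ^ 2 = (√2 ^ 2 - √2 + 1) * R ^ 2 := by ring
      rw [this, hsq]
      ring
    rw [h1]
    ring

/-- affine images of solids of revolution -/
def AffRev (K : Set V) : Prop :=
  ∃ (K' : Set V) (L : V ≃ₗ[ℝ] V) (p : V), IsRev K' ∧ K = (fun x => L x + p) '' K'

theorem aff_lattice {K : Set V} (hK : Body K) (hr : AffRev K) :
    ∃ b : Fin 3 → V, Packs K b ∧ ENNReal.ofReal (cst * |dt b|) ≤ volume K := by
  obtain ⟨K', L, p, hr', rfl⟩ := hr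
  obtain ⟨h1, h2, h3⟩ := hK
  -- the affine homeomorphism
  let Φ : V ≃ₜ V := L.toContinuousLinearEquiv.toHomeomorph.trans (Homeomorph.addRight p)
  have hΦ : (fun x => L x + p) = Φ := rfl
  have hK' : IsCompact K' := by
    rw [hΦ] at h1
    exact Φ.isCompact_image.1 h1
  have hint : (interior K').Nonempty := by
    rw [pack_interior_image] at h3
    exact h3.of_image
  have hconv : Convex ℝ K' := by
    intro x hx y hy a b ha hb hab
    obtain ⟨z, hz, hz'⟩ := h2 ⟨x, hx, rfl⟩ ⟨y, hy, rfl⟩ ha hb hab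
    have e : a • (L x + p) + b • (L y + p) = L (a • x + b • y) + p := by
      rw [map_add, map_smul, map_smul, smul_add, smul_add]
      have : p = a • p + b • p := by rw [← add_smul, hab, one_smul]
      nth_rewrite 3 [this]
      abel
    have h4 : L z + p = L (a • x + b • y) + p := hz'.trans e
    have h5 : z = a • x + b • y := L.injective (add_right_cancel h4)
    rw [← h5]
    exact hz
  obtain ⟨b, hb, hv⟩ := exists_lattice hK' hconv hint hr'
  have hb' := (packs_iff _ _).1 hb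
  have hdet : LinearMap.det L.toLinearMap ≠ 0 := (LinearEquiv.isUnit_det' L).ne_zero
  refine ⟨fun i => L (b i), (packs_iff _ _).2 ⟨?_, ?_⟩, ?_⟩
  · rw [pack_dt_image]
    exact mul_ne_zero hdet hb'.1
  · intro u hu hu0 hov
    obtain ⟨s, rfl⟩ := L.surjective u
    refine hb'.2 s ((pack_lat_image L b s).1 hu) ?_ ((pack_Ov_image K' L p s).1 hov)
    rintro rfl
    exact hu0 (map_zero L)
  · rw [pack_volume_image, pack_dt_image, abs_mul]
    have e : cst * (|LinearMap.det L.toLinearMap| * |dt b|) =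
        |LinearMap.det L.toLinearMap| * (cst * |dt b|) := by ring
    rw [e, ENNReal.ofReal_mul (abs_nonneg _)]
    gcongr

/-- a convex body in a solid of revolution of at most `l` times its volume -/
theorem dens_low {K K₁ : Set V} (hK : Body K) (hK₁ : Body K₁) (hr : AffRev K₁) (hsub : K ⊆ K₁)
    {l : ℝ} (hl : 0 < l) (hv : volume K₁ ≤ ENNReal.ofReal l * volume K) :
    ENNReal.ofReal (cst / l) ≤ dL K := by
  obtain ⟨b, hb, hvol⟩ := aff_lattice hK₁ hr
  have hb' := (packs_iff _ _).1 hb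
  have hpk : Packs K b := (packs_iff _ _).2 ⟨hb'.1, fun u hu hu0 hov =>
    hb'.2 u hu hu0 (by
      obtain ⟨x, hx, hxu⟩ := hov
      exact ⟨x, interior_mono hsub hx, interior_mono hsub hxu⟩)⟩
  have hb1 : 0 < |dt b| := abs_pos.2 hb'.1
  rw [dL_eq]
  have hle : dens K b ≤ deltaL K := by
    unfold deltaL
    exact le_iSup₂_of_le b hpk le_rfl
  refine le_trans ?_ hle
  rw [dens_eq b hb.1 _ hK.1]
  rw [ENNReal.le_div_iff_mul_le (Or.inl (by
    rw [ne_eq, ENNReal.ofReal_eq_zero, not_le]; exact hb1)) (Or.inl ENNReal.ofReal_ne_top)]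
  have hc0 : 0 < cst := by have := cst_gt; linarith
  have h1 : ENNReal.ofReal l * (ENNReal.ofReal (cst / l) * ENNReal.ofReal |dt b|) ≤
      ENNReal.ofReal l * volume K := by
    refine le_trans (le_of_eq ?_) (hvol.trans hv)
    rw [← ENNReal.ofReal_mul (by positivity), ← ENNReal.ofReal_mul hl.le]
    congr 1
    field_simp
  have hl' : ENNReal.ofReal l ≠ 0 := by
    rw [ne_eq, ENNReal.ofReal_eq_zero, not_le]; exact hl
  exact (ENNReal.mul_le_mul_iff_right hl' ENNReal.ofReal_ne_top).1 h1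

end Pool.Agent.U806.Rev
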