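import Pool.Agent.TH219.DL.TUp
import Pool.Agent.TH219.DL.CnAff

/-!
# Convex solids of revolution: discs, volumes of frustums, a family of lattices
-/

set_option autoImplicit false

namespace Pool.Agent.U806.Rev

open MeasureTheory Filter Topology
open scoped ENNReal
open Pool.Agent.H349R2.Tet Pool.Agent.TH219.DL

/-- a solid of revolution about the first coordinate axis: with every point it contains all points
with the same first coordinate and the same distance from the axis -/
def IsRev (K : Set V) : Prop :=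
  ∀ y ∈ K, ∀ z : V, z 0 = y 0 → z 1 ^ 2 + z 2 ^ 2 = y 1 ^ 2 + y 2 ^ 2 → z ∈ K

/-- the distance from the axis -/
noncomputable def rad (y : V) : ℝ := √(y 1 ^ 2 + y 2 ^ 2)

theorem rad_nonneg (y : V) : 0 ≤ rad y := Real.sqrt_nonneg _

theorem rad_sq (y : V) : rad y ^ 2 = y 1 ^ 2 + y 2 ^ 2 := Real.sq_sqrt (by positivity)

theorem rad_cont : Continuous rad := by
  unfold rad
  exact Real.continuous_sqrt.comp (((continuous_apply 1).pow 2).add ((continuous_apply 2).pow 2))

/-- the triangle inequality in the plane -/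
theorem dist_le (x y : V) : (x 1 - y 1) ^ 2 + (x 2 - y 2) ^ 2 ≤ (rad x + rad y) ^ 2 := by
  have hx := rad_sq x
  have hy := rad_sq y
  have hx0 := rad_nonneg x
  have hy0 := rad_nonneg y
  have h : -(x 1 * y 1 + x 2 * y 2) ≤ rad x * rad y := by
    have h1 : (x 1 * y 1 + x 2 * y 2) ^ 2 ≤ (rad x * rad y) ^ 2 := by
      rw [mul_pow, hx, hy]
      nlinarith [sq_nonneg (x 1 * y 2 - x 2 * y 1)]
    have h2 := abs_le_of_sq_le_sq h1 (mul_nonneg hx0 hy0)
    linarith [neg_le_of_abs_le h2, abs_le.1 h2 |>.1]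
  nlinarith

theorem disc {K : Set V} (hc : Convex ℝ K) (hr : IsRev K) {y z : V} (hy : y ∈ K) (h0 : z 0 = y 0)
    (h : rad z ≤ rad y) : z ∈ K := by
  have h1 : z 1 ^ 2 + z 2 ^ 2 ≤ y 1 ^ 2 + y 2 ^ 2 := by
    rw [← rad_sq, ← rad_sq]
    exact pow_le_pow_left₀ (rad_nonneg z) h 2
  set s : ℝ := √(y 1 ^ 2 + y 2 ^ 2 - z 1 ^ 2) with hs
  have hs0 : 0 ≤ s := Real.sqrt_nonneg _
  have hs2 : s ^ 2 = y 1 ^ 2 + y 2 ^ 2 - z 1 ^ 2 := Real.sq_sqrt (by nlinarith [sq_nonneg (z 2)])
  have ha : (![z 0, z 1, s] : V) ∈ K := by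
    refine hr y hy _ h0 ?_
    show z 1 ^ 2 + s ^ 2 = _
    linarith
  have hb : (![z 0, z 1, -s] : V) ∈ K := by
    refine hr y hy _ h0 ?_
    show z 1 ^ 2 + (-s) ^ 2 = _
    rw [neg_sq]
    linarith
  have hz : z 2 ^ 2 ≤ s ^ 2 := by linarith
  have hz' := abs_le_of_sq_le_sq hz hs0
  have hz1 := (abs_le.1 hz').1
  have hz2 := (abs_le.1 hz').2
  rcases hs0.eq_or_lt with h2 | h2
  · have h3 : z 2 = 0 := by linarith
    have h4 : z = ![z 0, z 1, s] := by
      funext i
      fin_cases i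
      · rfl
      · rfl
      · show z 2 = s
        rw [h3, h2]
    rw [h4]
    exact ha
  · have h4 := hc ha hb (a := (s + z 2) / (2 * s)) (b := (s - z 2) / (2 * s))
      (div_nonneg (by linarith) (by linarith)) (div_nonneg (by linarith) (by linarith))
      (by field_simp; ring)
    convert h4 using 1
    funext i
    fin_cases i
    · show z 0 = (s + z 2) / (2 * s) * z 0 + (s - z 2) / (2 * s) * z 0
      field_simp; ring
    · show z 1 = (s + z 2) / (2 * s) * z 1 + (s - z 2) / (2 * s) * z 1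
      field_simp; ring
    · show z 2 = (s + z 2) / (2 * s) * s + (s - z 2) / (2 * s) * (-s)
      field_simp; ring

/-! ### volumes -/

theorem slices {K : Set V} (hK : MeasurableSet K) :
    volume K = ∫⁻ t : ℝ, volume {x : Fin 2 → ℝ | cs t x ∈ K} := by
  have h := volume_preserving_piFinSuccAbove (fun _ : Fin 3 => ℝ) 0
  have h2 := (h.symm _).measure_preimage hK.nullMeasurableSet
  rw [← h2]
  have hm : MeasurableSet ((MeasurableEquiv.piFinSuccAbove (fun _ : Fin 3 => ℝ) 0).symm ⁻¹' K) :=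
    (MeasurableEquiv.measurable _) hK
  have h3 := Measure.prod_apply (μ := (volume : Measure ℝ))
    (ν := (volume : Measure (Fin 2 → ℝ))) hm
  rw [Measure.volume_eq_prod]
  refine Eq.trans h3 ?_
  apply lintegral_congr
  intro t
  congr 1
  ext x
  simp only [Set.mem_preimage, Set.mem_ofPred_eq]
  have : (MeasurableEquiv.piFinSuccAbove (fun _ : Fin 3 => ℝ) 0).symm (t, x) = cs t x := by
    funext i
    fin_cases i <;> rfl
  rw [this]

theorem area {r : ℝ} (hr : 0 ≤ r) :
    volume {x : Fin 2 → ℝ | x 0 ^ 2 + x 1 ^ 2 ≤ r ^ 2} = ENNReal.ofReal (Real.pi * r ^ 2) := by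
  have h1 := Complex.volume_preserving_equiv_pi
  have hm : MeasurableSet {x : Fin 2 → ℝ | x 0 ^ 2 + x 1 ^ 2 ≤ r ^ 2} := by
    apply measurableSet_le
    · exact ((measurable_pi_apply 0).pow_const 2).add ((measurable_pi_apply 1).pow_const 2)
    · exact measurable_const
  rw [← h1.measure_preimage hm.nullMeasurableSet]
  have h2 : Complex.measurableEquivPi ⁻¹' {x : Fin 2 → ℝ | x 0 ^ 2 + x 1 ^ 2 ≤ r ^ 2} =
      Metric.closedBall 0 r := by
    ext z
    simp only [Set.mem_preimage, Set.mem_ofPred_eq, Metric.mem_closedBall, dist_zero_right,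
      Complex.measurableEquivPi_apply, Matrix.cons_val_zero, Matrix.cons_val_one]
    rw [← abs_of_nonneg (norm_nonneg z), ← abs_of_nonneg hr]
    rw [← sq_le_sq, abs_of_nonneg hr, Complex.sq_norm, Complex.normSq_apply]
    rw [sq, sq]
  rw [h2, Complex.volume_closedBall]
  rw [ENNReal.ofReal_mul Real.pi_pos.le, ENNReal.ofReal_pow hr, mul_comm]
  congr 1
  rw [← NNReal.coe_real_pi, ENNReal.ofReal_coe_nnreal]

theorem int_lin (α β p q : ℝ) : ∫ t in p..q, (α + β * t) ^ 2 =
    (q - p) * ((α + β * p) ^ 2 + (α + β * p) * (α + β * q) + (α + β * q) ^ 2) / 3 := by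
  have h1 : ∀ t : ℝ, (α + β * t) ^ 2 = α ^ 2 + 2 * α * β * t + β ^ 2 * t ^ 2 := fun t => by ring
  simp_rw [h1]
  rw [intervalIntegral.integral_add, intervalIntegral.integral_add]
  · rw [intervalIntegral.integral_const, intervalIntegral.integral_const_mul,
      intervalIntegral.integral_const_mul, integral_id, integral_pow, smul_eq_mul]
    norm_num
    ring
  all_goals apply Continuous.intervalIntegrable; fun_prop

/-- the part of the frustum between two points -/
theorem frust {K : Set V} (hK : IsCompact K) (hc : Convex ℝ K) (hr : IsRev K) {A B : V}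
    (hA : A ∈ K) (hB : B ∈ K) (hAB : A 0 < B 0) :
    ENNReal.ofReal (Real.pi * ((B 0 - A 0) * (rad A ^ 2 + rad A * rad B + rad B ^ 2) / 3)) ≤
      volume (K ∩ {y | A 0 < y 0 ∧ y 0 ≤ B 0}) := by
  have hS : MeasurableSet (K ∩ {y : V | A 0 < y 0 ∧ y 0 ≤ B 0}) := by
    apply hK.measurableSet.inter
    apply MeasurableSet.inter
    · exact measurableSet_lt measurable_const (measurable_pi_apply 0)
    · exact measurableSet_le (measurable_pi_apply 0) measurable_const
  rw [slices hS]
  set p := A 0 with hp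
  set q := B 0 with hq
  set a := rad A with ha
  set b := rad B with hb
  have ha0 : 0 ≤ a := rad_nonneg A
  have hb0 : 0 ≤ b := rad_nonneg B
  have hpq : 0 < q - p := by linarith
  set β : ℝ := (b - a) / (q - p) with hβ
  set α : ℝ := a - β * p with hα
  have e1 : α + β * p = a := by rw [hα]; ring
  have e2 : α + β * q = b := by
    rw [hα]
    have : β * (q - p) = b - a := by rw [hβ]; field_simp
    linarith
  have hcomb : ∀ t, p < t → t ≤ q → ∃ u v : ℝ, 0 ≤ u ∧ 0 ≤ v ∧ u + v = 1 ∧ t = u * p + v * q ∧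
      α + β * t = u * a + v * b := by
    intro t h1 h2
    refine ⟨(q - t) / (q - p), (t - p) / (q - p), div_nonneg (by linarith) hpq.le,
      div_nonneg (by linarith) hpq.le, by field_simp; ring, by field_simp; ring, ?_⟩
    rw [hα, hβ]
    field_simp
    ring
  have hsub : ∀ t, p < t → t ≤ q → {x : Fin 2 → ℝ | x 0 ^ 2 + x 1 ^ 2 ≤ (α + β * t) ^ 2} ⊆
      {x : Fin 2 → ℝ | cs t x ∈ K ∩ {y : V | p < y 0 ∧ y 0 ≤ q}} := by
    intro t h1 h2 x hx
    have hx' : x 0 ^ 2 + x 1 ^ 2 ≤ (α + β * t) ^ 2 := hx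
    refine ⟨?_, h1, h2⟩
    obtain ⟨u, v, hu, hv, huv, ht, hf⟩ := hcomb t h1 h2
    -- the points of the meridian
    have hA' : (![p, a, 0] : V) ∈ K := by
      refine hr A hA _ rfl ?_
      show a ^ 2 + 0 ^ 2 = _
      rw [ha, rad_sq]; ring
    have hB' : (![q, b, 0] : V) ∈ K := by
      refine hr B hB _ rfl ?_
      show b ^ 2 + 0 ^ 2 = _
      rw [hb, rad_sq]; ring
    have hM := hc hA' hB' hu hv huv
    refine disc hc hr hM ?_ ?_
    · show t = u * p + v * q
      exact ht
    · apply Real.sqrt_le_sqrt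
      show x 0 ^ 2 + x 1 ^ 2 ≤ (u * a + v * b) ^ 2 + (u * 0 + v * 0) ^ 2
      rw [← hf]
      nlinarith
  have hnn : ∀ t, p < t → t ≤ q → 0 ≤ α + β * t := by
    intro t h1 h2
    obtain ⟨u, v, hu, hv, huv, ht, hf⟩ := hcomb t h1 h2
    rw [hf]
    positivity
  have hint : ∫⁻ t in Set.Ioc p q, ENNReal.ofReal (Real.pi * (α + β * t) ^ 2) =
      ENNReal.ofReal (Real.pi * ((q - p) * (a ^ 2 + a * b + b ^ 2) / 3)) := by
    rw [← ofReal_integral_eq_lintegral_ofReal]
    · rw [← intervalIntegral.integral_of_le (by linarith), intervalIntegral.integral_const_mul,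
        int_lin, e1, e2]
    · apply Continuous.integrableOn_Ioc
      fun_prop
    · exact Eventually.of_forall fun t => by positivity
  rw [← hint, ← lintegral_indicator measurableSet_Ioc]
  apply lintegral_mono
  intro t
  by_cases ht : t ∈ Set.Ioc p q
  · rw [Set.indicator_of_mem ht]
    show ENNReal.ofReal (Real.pi * (α + β * t) ^ 2) ≤ _
    rw [← area (hnn t ht.1 ht.2)]
    exact measure_mono (hsub t ht.1 ht.2)
  · rw [Set.indicator_of_notMem ht]
    exact bot_le

/-- two frustums with a common face of maximal radius -/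
theorem vol_two {K : Set V} (hK : IsCompact K) (hc : Convex ℝ K) (hr : IsRev K) {x y w : V}
    (hx : x ∈ K) (hy : y ∈ K) (hw : w ∈ K) (hxy : y 0 < x 0) {σ : ℝ} (hσ : 0 ≤ σ)
    (h1 : σ ≤ rad x) (h2 : σ ≤ rad y) :
    ENNReal.ofReal (Real.pi * ((x 0 - y 0) * (σ ^ 2 + σ * rad w + rad w ^ 2) / 3)) ≤ volume K := by
  set R := rad w with hR
  have hR0 : 0 ≤ R := rad_nonneg w
  have hpi := Real.pi_pos
  have mono : ∀ s : ℝ, σ ≤ s → σ ^ 2 + σ * R + R ^ 2 ≤ s ^ 2 + s * R + R ^ 2 := by
    intro s hs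
    nlinarith [mul_nonneg (sub_nonneg.2 hs) hR0]
  have hg0 : 0 ≤ σ ^ 2 + σ * R + R ^ 2 := by positivity
  rcases le_or_gt (x 0) (w 0) with hwx | hwx
  · refine le_trans ?_ ((frust hK hc hr hy hw (by linarith)).trans
      (measure_mono Set.inter_subset_left))
    apply ENNReal.ofReal_le_ofReal
    have h3 := mono _ h2
    have h4 : (x 0 - y 0) * (σ ^ 2 + σ * R + R ^ 2) ≤
        (w 0 - y 0) * (rad y ^ 2 + rad y * R + R ^ 2) :=
      mul_le_mul (by linarith) h3 hg0 (by linarith)
    apply mul_le_mul_of_nonneg_left _ hpi.le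
    linarith
  rcases le_or_gt (w 0) (y 0) with hwy | hwy
  · refine le_trans ?_ ((frust hK hc hr hw hx (by linarith)).trans
      (measure_mono Set.inter_subset_left))
    apply ENNReal.ofReal_le_ofReal
    have h3 := mono _ h1
    have h4 : (x 0 - y 0) * (σ ^ 2 + σ * R + R ^ 2) ≤
        (x 0 - w 0) * (rad x ^ 2 + rad x * R + R ^ 2) :=
      mul_le_mul (by linarith) h3 hg0 (by linarith)
    apply mul_le_mul_of_nonneg_left _ hpi.le
    have e : R ^ 2 + R * rad x + rad x ^ 2 = rad x ^ 2 + rad x * R + R ^ 2 := by ring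
    rw [e]
    linarith
  · have f1 := frust hK hc hr hy hw hwy
    have f2 := frust hK hc hr hw hx hwx
    have hd : Disjoint (K ∩ {z : V | y 0 < z 0 ∧ z 0 ≤ w 0}) (K ∩ {z : V | w 0 < z 0 ∧ z 0 ≤ x 0}) := by
      rw [Set.disjoint_left]
      rintro z ⟨_, h3⟩ ⟨_, h4⟩
      exact absurd h4.1 (not_lt.2 h3.2)
    have hm : MeasurableSet (K ∩ {z : V | w 0 < z 0 ∧ z 0 ≤ x 0}) := by
      apply hK.measurableSet.inter
      apply MeasurableSet.inter
      · exact measurableSet_lt measurable_const (measurable_pi_apply 0)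
      · exact measurableSet_le (measurable_pi_apply 0) measurable_const
    have h5 : volume (K ∩ {z : V | y 0 < z 0 ∧ z 0 ≤ w 0}) +
        volume (K ∩ {z : V | w 0 < z 0 ∧ z 0 ≤ x 0}) ≤ volume K := by
      rw [← measure_union hd hm]
      exact measure_mono (Set.union_subset Set.inter_subset_left Set.inter_subset_left)
    refine le_trans ?_ ((add_le_add f1 f2).trans h5)
    have hry := rad_nonneg y
    have hrx := rad_nonneg x
    have hyw : 0 ≤ w 0 - y 0 := by linarith
    have hwx' : 0 ≤ x 0 - w 0 := by linarith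
    rw [← ENNReal.ofReal_add (by positivity) (by positivity)]
    apply ENNReal.ofReal_le_ofReal
    rw [← mul_add]
    apply mul_le_mul_of_nonneg_left _ hpi.le
    have h3 := mul_le_mul_of_nonneg_left (mono _ h2) hyw
    have h4 := mul_le_mul_of_nonneg_left (mono _ h1) hwx'
    have e : R ^ 2 + R * rad x + rad x ^ 2 = rad x ^ 2 + rad x * R + R ^ 2 := by ring
    rw [e]
    have e2 : (x 0 - y 0) * (σ ^ 2 + σ * R + R ^ 2) =
        (w 0 - y 0) * (σ ^ 2 + σ * R + R ^ 2) + (x 0 - w 0) * (σ ^ 2 + σ * R + R ^ 2) := by ring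
    rw [e2]
    linarith

end Pool.Agent.U806.Rev
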